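import Pool.Agent.H47.Jac2

/-!
The Jacobian rows of a pair of graphs form a basis exactly for disjoint unions of odd cycles.
-/

namespace Pool.Agent.Results.MP_305ad1_co.OddCyc

open MvPolynomial

/-- the field `F(x_{a,b})` -/
abbrev Kf (F : Type) [Field F] (n m : ℕ) := FractionRing (MvPolynomial (Fin n × Fin m) F)

/-- the binomial `x_{i,k} x_{j,l} - x_{i,l} x_{j,k}` -/
noncomputable def minor (F : Type) [Field F] {n m : ℕ} (i j : Fin n) (k l : Fin m) :
    MvPolynomial (Fin n × Fin m) F :=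
  X (i, k) * X (j, l) - X (i, l) * X (j, k)

/-- edges `{i, j}` written as pairs with `i < j` -/
def Edge {n : ℕ} (G : SimpleGraph (Fin n)) : Type := {e : Fin n × Fin n // G.Adj e.1 e.2 ∧ e.1 < e.2}

/-- the rows of the Jacobian matrix -/
noncomputable def row (F : Type) [Field F] {n m : ℕ} (G : SimpleGraph (Fin n))
    (H : SimpleGraph (Fin m)) (e : Edge G × Edge H) : Fin n × Fin m → Kf F n m :=
  fun c => algebraMap _ _ (pderiv c (minor F e.1.1.1 e.1.1.2 e.2.1.1 e.2.1.2))

/-- the basis property -/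
def BasisProp (F : Type) [Field F] {n m : ℕ} (G : SimpleGraph (Fin n))
    (H : SimpleGraph (Fin m)) : Prop :=
  LinearIndependent (Kf F n m) (row F G H) ∧
    Submodule.span (Kf F n m) (Set.range (row F G H)) =
      Submodule.span (Kf F n m) (Set.range (row F (⊤ : SimpleGraph (Fin n)) (⊤ : SimpleGraph (Fin m))))

/-- the edges of `G` are the pairs `{a, σ a}` for a permutation `σ` with only odd cycles -/
def OddCycles {n : ℕ} (G : SimpleGraph (Fin n)) : Prop :=
  ∃ σ : Equiv.Perm (Fin n), Odd (orderOf σ) ∧ ∀ a b, G.Adj a b ↔ b = σ a ∨ a = σ b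

open H47.Jac

noncomputable def XX (F : Type) [Field F] (n m : ℕ) (a : Fin n) (b : Fin m) : Kf F n m :=
  algebraMap (MvPolynomial (Fin n × Fin m) F) _ (X (a, b))

theorem row_eq (F : Type) [Field F] {n m : ℕ} (G : SimpleGraph (Fin n))
    (H : SimpleGraph (Fin m)) (e : Edge G × Edge H) :
    row F G H e = fun c => E (XX F n m) (Pi.single c 1) e.1.1.1 e.1.1.2 e.2.1.1 e.2.1.2 := by
  funext c
  simp only [row, minor, map_sub, Derivation.leibniz, pderiv_X, smul_eq_mul, map_add, map_mul, E,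
    XX, Pi.single_apply, apply_ite (algebraMap (MvPolynomial (Fin n × Fin m) F) (Kf F n m)),
    map_one, map_zero]
  ring

theorem XX_ne (F : Type) [Field F] {n m : ℕ} {i j : Fin n} {k l : Fin m} (h : i ≠ j)
    (h' : k ≠ l) : XX F n m i k * XX F n m j l - XX F n m i l * XX F n m j k ≠ 0 := by
  intro h0
  simp only [XX, ← map_mul, ← map_sub] at h0
  have h1 := (FaithfulSMul.algebraMap_eq_zero_iff _ _).1 h0
  have := congrArg (eval fun p => if p = (i, k) ∨ p = (j, l) then (1 : F) else 0) h1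
  simp [h, h', h.symm, h'.symm] at this

theorem sorted {n : ℕ} {G : SimpleGraph (Fin n)} {i j : Fin n} (h : G.Adj i j) :
    ∃ e : Edge G, e.1 = (i, j) ∨ e.1 = (j, i) := by
  rcases lt_or_gt_of_ne h.ne with h1 | h1
  · exact ⟨⟨(i, j), h, h1⟩, Or.inl rfl⟩
  · exact ⟨⟨(j, i), h.symm, h1⟩, Or.inr rfl⟩

theorem mem_of {K M : Type} [Field K] {S : Submodule K (M → K)} {x y : M → K} (h : x ∈ S)
    (e : ∀ c, x c = y c) : y ∈ S := (_root_.funext e : x = y) ▸ h

theorem mem_span (F : Type) [Field F] {n m : ℕ} {G : SimpleGraph (Fin n)}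
    {H : SimpleGraph (Fin m)} {i j : Fin n} {k l : Fin m} (h : G.Adj i j) (h' : H.Adj k l) :
    (fun c => E (XX F n m) (Pi.single c 1) i j k l) ∈
      Submodule.span (Kf F n m) (Set.range (row F G H)) := by
  obtain ⟨e, he⟩ := sorted h
  obtain ⟨e', he'⟩ := sorted h'
  have h1 : row F G H (e, e') ∈ Submodule.span (Kf F n m) (Set.range (row F G H)) :=
    Submodule.subset_span ⟨_, rfl⟩
  have h2 := Submodule.neg_mem _ h1
  rw [row_eq] at h1 h2
  rcases he with he | he <;> rcases he' with he' | he' <;> simp only [he, he'] at h1 h2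
  · exact h1
  · refine mem_of h2 fun c => ?_
    simp only [Pi.neg_apply, E]; ring
  · refine mem_of h2 fun c => ?_
    simp only [Pi.neg_apply, E]; ring
  · refine mem_of h1 fun c => ?_
    simp only [E]; ring

theorem odd_of {n : ℕ} (G : SimpleGraph (Fin n)) [DecidableRel G.Adj] (hd : ∀ a, G.degree a = 2)
    (hε : ∀ ε : Fin n → ℤ, (∀ i j, G.Adj i j → ε i + ε j = 0) → ε = 0) : OddCycles G := by
  obtain ⟨σ, hσ⟩ := orient G hd
  refine ⟨σ, by_contra fun ho => ?_, hσ⟩
  obtain ⟨ε, h1, a, ha⟩ := exists_sign ho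
  have := hε ε fun i j hij => by
    rcases (hσ i j).1 hij with rfl | rfl <;> rw [h1] <;> ring
  rw [this] at ha
  simp at ha

theorem deg_two {n : ℕ} (G : SimpleGraph (Fin n)) [DecidableRel G.Adj] (hd : ∀ a, 2 ≤ G.degree a)
    (h : Nat.card (Edge G) ≤ n) (a : Fin n) : G.degree a = 2 := by
  have h1 : 2 * Nat.card (Edge G) = _ := card_edges G
  have h2 : ∑ _a : Fin n, 2 = ∑ a, G.degree a :=
    le_antisymm (Finset.sum_le_sum fun a _ => hd a) (by simp; omega)
  exact ((Finset.sum_eq_sum_iff_of_le fun a _ => hd a).1 h2 a (Finset.mem_univ a)).symm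

theorem card_ge {n : ℕ} (G : SimpleGraph (Fin n)) [DecidableRel G.Adj] (hd : ∀ a, 2 ≤ G.degree a) :
    n ≤ Nat.card (Edge G) := by
  have h1 : 2 * Nat.card (Edge G) = _ := card_edges G
  have h2 : ∑ _a : Fin n, 2 ≤ ∑ a, G.degree a := Finset.sum_le_sum fun a _ => hd a
  simp at h2; omega

theorem card_le {n : ℕ} {G : SimpleGraph (Fin n)} {σ : Equiv.Perm (Fin n)}
    (hσ : ∀ a b, G.Adj a b ↔ b = σ a ∨ a = σ b) : Nat.card (Edge G) ≤ n := by
  classical
  have h1 : 2 * Nat.card (Edge G) = _ := card_edges G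
  have h2 : ∑ a, G.degree a ≤ ∑ _a : Fin n, 2 := Finset.sum_le_sum fun a _ => by
    refine le_trans (Finset.card_le_card fun b hb => ?_)
      (Finset.card_le_two (a := σ a) (b := σ.symm a))
    rcases (hσ a b).1 (by simpa using hb) with rfl | rfl <;> simp
  simp at h2; omega

theorem result (F : Type) [Field F] [CharZero F] (n m : ℕ) (hn : 3 ≤ n) (hm : 3 ≤ m)
    (G : SimpleGraph (Fin n)) (H : SimpleGraph (Fin m)) (hG : ∀ a, ∃ b, G.Adj a b)
    (hH : ∀ a, ∃ b, H.Adj a b) : BasisProp F G H ↔ OddCycles G ∧ OddCycles H := by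
  classical
  have : Fintype (Edge G) := by unfold Edge; infer_instance
  have : Fintype (Edge H) := by unfold Edge; infer_instance
  have hinj := IsFractionRing.injective (MvPolynomial (Fin n × Fin m) F) (Kf F n m)
  have : CharZero (Kf F n m) := charZero_of_injective_algebraMap hinj
  have hcard : Fintype.card (Edge G × Edge H) = Nat.card (Edge G) * Nat.card (Edge H) := by simp
  have hrank : Module.finrank (Kf F n m) (Fin n × Fin m → Kf F n m) = n * m := by simp
  constructor
  · rintro ⟨hli, hsp⟩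
    have hP : ∀ v, (∀ i j k l, G.Adj i j → H.Adj k l → E (XX F n m) v i j k l = 0) →
        ∀ i j k l, E (XX F n m) v i j k l = 0 := by
      intro v hv i j k l
      by_cases hij : i = j
      · subst hij; simp only [E]; ring
      by_cases hkl : k = l
      · subst hkl; simp only [E]; ring
      have h1 := mem_span F (G := ⊤) (H := ⊤) hij hkl
      rw [← hsp] at h1
      rw [← E_dot]
      refine Submodule.span_induction (p := fun r _ => ∑ c, r c * v c = 0) ?_ (by simp) ?_ ?_ h1
      · rintro _ ⟨e, rfl⟩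
        rw [row_eq]
        exact (E_dot _ _ _ _ _ _).trans (hv _ _ _ _ e.1.2.1 e.2.2.1)
      · intro x y _ _ hx hy
        simp [add_mul, Finset.sum_add_distrib, hx, hy]
      · intro a x _ hx
        simp [mul_assoc, ← Finset.mul_sum, hx]
    obtain ⟨g1, g2⟩ := struct G H (XX F n m) (by simpa) (k := ⟨0, by omega⟩) (l := ⟨1, by omega⟩)
      (fun i j hij => XX_ne F hij (by simp)) hG hP
    obtain ⟨k1, k2⟩ := struct H G (fun b a => XX F n m a b) (by simpa) (k := ⟨0, by omega⟩)
      (l := ⟨1, by omega⟩) (fun i j hij h => XX_ne F (n := n) (i := ⟨0, by omega⟩)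
        (j := ⟨1, by omega⟩) (by simp) hij (by linear_combination h)) hH (fun v hv k l i j => by
      rw [E_tr]
      exact hP _ (fun i j k l h1 h2 => by rw [← E_tr]; exact hv _ _ _ _ h2 h1) i j k l)
    have h1 := hli.fintype_card_le_finrank
    rw [hcard, hrank] at h1
    have h2 := card_ge G g1
    have h3 := card_ge H k1
    refine ⟨odd_of G (deg_two G g1 ?_) g2, odd_of H (deg_two H k1 ?_) k2⟩
    · exact Nat.le_of_mul_le_mul_right (le_trans (Nat.mul_le_mul_left _ h3) h1) (by omega)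
    · exact Nat.le_of_mul_le_mul_left (le_trans (Nat.mul_le_mul_right _ h2) h1) (by omega)
  · rintro ⟨⟨σ, hσ, hσG⟩, τ, hτ, hτH⟩
    have a1 : ∀ a, G.Adj a (σ a) := fun a => (hσG _ _).2 (Or.inl rfl)
    have a2 : ∀ a, H.Adj a (τ a) := fun a => (hτH _ _).2 (Or.inl rfl)
    have hdet := det_ne hσ (fun a => (a1 a).ne') hτ (fun a => (a2 a).ne')
      ((algebraMap _ (Kf F n m)).comp (map (Int.castRingHom F)))
      (hinj.comp (map_injective _ Int.cast_injective))
    have hli := Matrix.linearIndependent_rows_iff_isUnit.2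
      ((Matrix.isUnit_iff_isUnit_det _).2 (isUnit_iff_ne_zero.2 hdet))
    have hsp := hli.span_eq_top_of_card_eq_finrank' (by simp)
    have htop : ∀ (G' : SimpleGraph (Fin n)) (H' : SimpleGraph (Fin m)), (∀ a, G'.Adj a (σ a)) →
        (∀ a, H'.Adj a (τ a)) → ⊤ ≤ Submodule.span (Kf F n m) (Set.range (row F G' H')) := by
      intro G' H' b1 b2
      rw [← hsp, Submodule.span_le]
      rintro _ ⟨p, rfl⟩
      refine mem_of (mem_span F (b1 p.1) (b2 p.2)) fun c => ?_
      simp [Matrix.row]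
      rfl
    refine ⟨linearIndependent_of_top_le_span_of_card_le_finrank (htop G H a1 a2) ?_, ?_⟩
    · rw [hcard, hrank]
      exact Nat.mul_le_mul (card_le hσG) (card_le hτH)
    · rw [top_le_iff.1 (htop G H a1 a2),
        top_le_iff.1 (htop ⊤ ⊤ (fun a => (a1 a).ne) fun a => (a2 a).ne)]

end Pool.Agent.Results.MP_305ad1_co.OddCyc
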